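import Pool.Agent.W646.CI.Stm
import Pool.Agent.MP06ac62.U2

/-!
Project CI, pieces CI-LOGI and CI-RECI: local integrability of log and reciprocal.
-/

set_option autoImplicit false

open MeasureTheory Filter Topology Set Metric Pool.Agent.W646.CI

namespace Pool.Agent.W639.CI.LogReci

theorem hH (z s : ℂ) : HasDerivAt (fun s : ℂ => 1 - z * Complex.exp (-s)) (z * Complex.exp (-s)) s := by
  have h1 : HasDerivAt (fun s : ℂ => -s) (-1) s := (hasDerivAt_id s).neg
  have h2 : HasDerivAt (fun s : ℂ => Complex.exp (-s)) (Complex.exp (-s) * (-1)) s := h1.cexp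
  have h3 := (h2.const_mul z).const_sub 1
  exact h3.congr_deriv (by ring)

theorem logi : S_LOGI := by
  intro z A hA
  obtain ⟨R, hR⟩ := hA.subset_closedBall (0 : ℂ)
  refine IntegrableOn.mono_set ?_ hR
  refine MinMod.U2.log_integrable (closedBall 0 R) univ (isCompact_closedBall _ _) isOpen_univ
    isPreconnected_univ (subset_univ _) (fun s => 1 - z * Complex.exp (-s)) ?_ ?_
  · intro s _
    exact (hH z s).differentiableAt.differentiableWithinAt
  · by_cases hz : z = 0
    · exact ⟨0, mem_univ _, by simp [hz]⟩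
    · by_cases h1 : z = 1
      · refine ⟨Complex.log 2, mem_univ _, ?_⟩
        rw [Complex.exp_neg, Complex.exp_log (by norm_num), h1]
        norm_num
      · refine ⟨0, mem_univ _, ?_⟩
        simp only [neg_zero, Complex.exp_zero, mul_one]
        exact sub_ne_zero.2 (Ne.symm h1)

theorem lower (z s0 : ℂ) (hz : z ≠ 0) : ∃ C > (0 : ℝ), ∃ r > (0 : ℝ), ∀ s ∈ ball s0 r, s ≠ s0 →
    ‖s - s0‖ ≤ C * ‖1 - z * Complex.exp (-s)‖ := by
  set H : ℂ → ℂ := fun s => 1 - z * Complex.exp (-s) with hHdef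
  by_cases h0 : H s0 = 0
  · have hd : z * Complex.exp (-s0) ≠ 0 := mul_ne_zero hz (Complex.exp_ne_zero _)
    have ht := (hasDerivAt_iff_tendsto_slope.1 (hH z s0)).norm
    have hpos : 0 < ‖z * Complex.exp (-s0)‖ := norm_pos_iff.2 hd
    have hev := ht.eventually (lt_mem_nhds (half_lt_self hpos))
    rw [eventually_nhdsWithin_iff, Metric.eventually_nhds_iff_ball] at hev
    obtain ⟨r, hr, hev⟩ := hev
    refine ⟨2 / ‖z * Complex.exp (-s0)‖, by positivity, r, hr, fun s hs hne => ?_⟩
    have h1 := hev s hs hne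
    have h2 : slope H s0 s = (s - s0)⁻¹ * H s := by
      rw [slope_def_field, h0, sub_zero]
      field_simp
    have h3 : ‖slope H s0 s‖ = ‖s - s0‖⁻¹ * ‖H s‖ := by rw [h2, norm_mul, norm_inv]
    have h4 : ‖z * Complex.exp (-s0)‖ / 2 < ‖s - s0‖⁻¹ * ‖H s‖ := h3 ▸ h1
    have hsp : 0 < ‖s - s0‖ := norm_pos_iff.2 (sub_ne_zero.2 hne)
    rw [inv_mul_eq_div, lt_div_iff₀ hsp] at h4
    change ‖s - s0‖ ≤ 2 / ‖z * Complex.exp (-s0)‖ * ‖H s‖
    rw [div_mul_eq_mul_div, le_div_iff₀ hpos]
    linarith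
  · have hc : ContinuousAt (fun s => ‖H s‖) s0 := (hH z s0).continuousAt.norm
    have hpos : 0 < ‖H s0‖ := norm_pos_iff.2 h0
    have hev := hc.eventually (lt_mem_nhds (half_lt_self hpos))
    rw [Metric.eventually_nhds_iff_ball] at hev
    obtain ⟨r, hr, hev⟩ := hev
    refine ⟨2 / ‖H s0‖, by positivity, min r 1, by positivity, fun s hs hne => ?_⟩
    have h1 := hev s (ball_subset_ball (min_le_left _ _) hs)
    have h2 : ‖s - s0‖ < 1 := by
      have := ball_subset_ball (min_le_right r 1) hs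
      rwa [mem_ball, dist_eq_norm] at this
    change ‖s - s0‖ ≤ 2 / ‖H s0‖ * ‖H s‖
    rw [div_mul_eq_mul_div, le_div_iff₀ hpos]
    nlinarith

theorem kernel (s0 : ℂ) (r : ℝ) : IntegrableOn (fun s : ℂ => ‖s - s0‖⁻¹) (ball s0 r) := by
  have h0 : IntegrableOn (fun w : ℂ => ‖w‖⁻¹) (ball (0:ℂ) r) := by
    refine MeasureTheory.integrableOn_ball_of_norm_le_rpow (α := 1) (C := 1) ?_ ?_ ?_ ?_
    · rw [Complex.finrank_real_complex]; norm_num
    · rw [Complex.finrank_real_complex]; norm_num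
    · refine Filter.Eventually.of_forall fun x => ?_
      rw [Real.norm_of_nonneg (by positivity), one_mul, Real.rpow_neg_one]
    · have : Measurable (fun w : ℂ => ‖w‖⁻¹) := by fun_prop
      exact this.aestronglyMeasurable
  have h1 := ((measurePreserving_sub_right volume s0).integrableOn_comp_preimage
    (MeasurableEquiv.subRight s0).measurableEmbedding (f := fun w : ℂ => ‖w‖⁻¹)
    (s := ball (0:ℂ) r)).2 h0
  have h2 : (fun x : ℂ => x - s0) ⁻¹' ball (0:ℂ) r = ball s0 r := by
    ext x; simp [mem_ball, dist_eq_norm]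
  rw [h2] at h1
  exact h1

theorem reci : S_RECI := by
  intro z A hA
  obtain ⟨R, hR⟩ := hA.subset_closedBall (0 : ℂ)
  refine IntegrableOn.mono_set ?_ hR
  have hmeas : Measurable (fun s : ℂ => 1 / ‖1 - z * Complex.exp (-s)‖) := by fun_prop
  by_cases hz : z = 0
  · subst hz
    simp only [zero_mul, sub_zero, norm_one, div_one]
    exact integrableOn_const (isCompact_closedBall _ _).measure_lt_top.ne
  apply LocallyIntegrableOn.integrableOn_isCompact _ (isCompact_closedBall _ _)
  apply LocallyIntegrable.locallyIntegrableOn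
  intro s0
  obtain ⟨C, hC, r, hr, hb⟩ := lower z s0 hz
  refine ⟨ball s0 r, ball_mem_nhds s0 hr, ?_⟩
  refine Integrable.mono' ((kernel s0 r).const_mul C) hmeas.aestronglyMeasurable ?_
  have hne : ∀ᵐ s ∂(volume.restrict (ball s0 r)), s ≠ s0 := by
    have : ∀ᵐ s ∂(volume : Measure ℂ), s ≠ s0 := by
      simp [ae_iff]
    exact ae_restrict_of_ae this
  filter_upwards [hne, ae_restrict_mem measurableSet_ball] with s hs hsb
  have h1 := hb s hsb hs
  have hsp : 0 < ‖s - s0‖ := norm_pos_iff.2 (sub_ne_zero.2 hs)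
  have hHp : 0 < ‖1 - z * Complex.exp (-s)‖ := by
    rcases (norm_nonneg (1 - z * Complex.exp (-s))).eq_or_lt with h | h
    · rw [← h, mul_zero] at h1; linarith
    · exact h
  rw [Real.norm_of_nonneg (by positivity), ← div_eq_mul_inv, div_le_div_iff₀ hHp hsp]
  linarith

end Pool.Agent.W639.CI.LogReci
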