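import Pool.Agent.W809.CI.Stm

/-! Project CI (helper809), part PT: basic properties of the translations and of the contraction. -/

set_option autoImplicit false

open Set Filter Topology

namespace Pool.Agent.W639.CI

open Pool.Agent.W809.CI

theorem cont_val : Continuous (fun x : Pt => x.1) := continuous_subtype_val

theorem cont_mk {Y : Type*} [TopologicalSpace Y] {f : Y → ℝ × (ℤ → ℝ) × ℝ} (hf : Continuous f)
    (h : ∀ y, 0 ≤ (f y).1 ∧ ∃ j : ℤ, (f y).2.1 = Pi.single j (f y).1) :
    Continuous (fun y => (⟨f y, h y⟩ : Pt)) := hf.subtype_mk h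

theorem ca_cont : Continuous ca := by unfold ca; fun_prop
theorem cb_cont : Continuous cb := by unfold cb; fun_prop
theorem cc_cont : Continuous cc := by unfold cc; fun_prop
theorem Dp_cont : Continuous Dp := by
  unfold Dp
  refine Continuous.log (by fun_prop) fun r => ?_
  have := abs_nonneg r
  linarith

theorem ca_le (θ : ℝ) : ca θ ≤ 1 := max_le zero_le_one (min_le_left _ _)
theorem cb_le (θ : ℝ) : cb θ ≤ 1 :=
  max_le zero_le_one ((min_le_right _ _).trans (min_le_left _ _))
theorem cc_le (θ : ℝ) : cc θ ≤ 1 := max_le zero_le_one (min_le_left _ _)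
theorem cc_nonneg (θ : ℝ) : 0 ≤ cc θ := le_max_left _ _

theorem ext' {x y : Pt} (h1 : x.1.1 = y.1.1) (h2 : ∀ k, x.1.2.1 k = y.1.2.1 k)
    (h3 : x.1.2.2 = y.1.2.2) : x = y :=
  Subtype.ext (Prod.ext h1 (Prod.ext (funext h2) h3))

theorem pt : S_PT := by
  refine ⟨?_, ?_, ?_, ?_, ?_, ?_, ?_, ?_, ?_, ?_, ?_⟩
  · intro m
    refine cont_mk (f := fun x : Pt => (x.1.1, fun k => x.1.2.1 (k - m), x.1.2.2 + m)) ?_ _
    have h1 := cont_val
    have h2 : Continuous (fun x : Pt => x.1.2.1) := h1.snd.fst
    refine h1.fst.prodMk ((continuous_pi fun k => ?_).prodMk ?_)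
    · exact (continuous_apply (k - m)).comp h2
    · exact h1.snd.snd.add continuous_const
  · refine cont_mk (f := fun q : ℝ × Pt => (ca q.1 * q.2.1.1 + cb q.1 * Dp q.2.1.2.2,
      fun k => ca q.1 * q.2.1.2.1 k + (Pi.single (0 : ℤ) (cb q.1 * Dp q.2.1.2.2) : ℤ → ℝ) k,
      cc q.1 * q.2.1.2.2)) ?_ _
    have h1 : Continuous (fun q : ℝ × Pt => q.2.1) := cont_val.comp continuous_snd
    have ha : Continuous (fun q : ℝ × Pt => ca q.1) := ca_cont.comp continuous_fst
    have hb : Continuous (fun q : ℝ × Pt => cb q.1) := cb_cont.comp continuous_fst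
    have hc : Continuous (fun q : ℝ × Pt => cc q.1) := cc_cont.comp continuous_fst
    have hd : Continuous (fun q : ℝ × Pt => Dp q.2.1.2.2) := Dp_cont.comp h1.snd.snd
    have hv : Continuous (fun q : ℝ × Pt => q.2.1.2.1) := h1.snd.fst
    refine ((ha.mul h1.fst).add (hb.mul hd)).prodMk ((continuous_pi fun k => ?_).prodMk
      (hc.mul h1.snd.snd))
    refine (ha.mul ((continuous_apply k).comp hv)).add ?_
    simp only [Pi.single_apply]
    split_ifs
    · exact hb.mul hd
    · exact continuous_const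
  · intro m m' x
    refine ext' rfl (fun k => ?_) ?_
    · show x.1.2.1 (k - m - m') = x.1.2.1 (k - (m + m'))
      rw [sub_sub]
    · show x.1.2.2 + m' + m = x.1.2.2 + ((m + m' : ℤ) : ℝ)
      push_cast
      ring
  · intro x
    refine ext' rfl (fun k => ?_) ?_
    · show x.1.2.1 (k - 0) = x.1.2.1 k
      rw [sub_zero]
    · show x.1.2.2 + ((0 : ℤ) : ℝ) = x.1.2.2
      simp
  · intro θ x hθ
    have h1 : ca θ = 1 := by
      unfold ca
      rw [min_eq_left (by linarith), max_eq_right zero_le_one]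
    have h2 : cb θ = 0 := by
      unfold cb
      exact max_eq_left ((min_le_left _ _).trans (by linarith))
    have h3 : cc θ = 1 := by
      unfold cc
      rw [min_eq_left (by linarith), max_eq_right zero_le_one]
    refine ext' ?_ (fun k => ?_) ?_
    · show ca θ * x.1.1 + cb θ * Dp x.1.2.2 = x.1.1
      rw [h1, h2]; ring
    · show ca θ * x.1.2.1 k + (Pi.single (0 : ℤ) (cb θ * Dp x.1.2.2) : ℤ → ℝ) k = x.1.2.1 k
      rw [h1, h2]; simp
    · show cc θ * x.1.2.2 = x.1.2.2
      rw [h3, one_mul]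
  · intro θ x hθ
    have h1 : ca θ = 0 := by
      unfold ca
      exact max_eq_left ((min_le_right _ _).trans (by linarith))
    have h2 : cb θ = 0 := by
      unfold cb
      exact max_eq_left ((min_le_right _ _).trans ((min_le_right _ _).trans (by linarith)))
    have h3 : cc θ = 0 := by
      unfold cc
      exact max_eq_left ((min_le_right _ _).trans (by linarith))
    refine ext' ?_ (fun k => ?_) ?_
    · show ca θ * x.1.1 + cb θ * Dp x.1.2.2 = 0
      rw [h1, h2]; ring
    · show ca θ * x.1.2.1 k + (Pi.single (0 : ℤ) (cb θ * Dp x.1.2.2) : ℤ → ℝ) k = 0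
      rw [h1, h2]; simp
    · show cc θ * x.1.2.2 = 0
      rw [h3, zero_mul]
  · intro θ x
    constructor
    · show ca θ * x.1.1 + cb θ * Dp x.1.2.2 ≤ max x.1.1 (Dp x.1.2.2)
      have hs := x.2.1
      have hD := Dp_nonneg x.1.2.2
      rcases ca_or_cb θ with h | h
      · rw [h, zero_mul, zero_add]
        exact (mul_le_of_le_one_left hD (cb_le θ)).trans (le_max_right _ _)
      · rw [h, zero_mul, add_zero]
        exact (mul_le_of_le_one_left hs (ca_le θ)).trans (le_max_left _ _)
    · show |cc θ * x.1.2.2| ≤ |x.1.2.2|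
      rw [abs_mul, abs_of_nonneg (cc_nonneg θ)]
      exact mul_le_of_le_one_left (abs_nonneg _) (cc_le θ)
  · intro m x
    exact ⟨rfl, rfl⟩
  · intro x
    exact x.2.1
  · exact cont_val.fst
  · exact cont_val.snd.snd

end Pool.Agent.W639.CI
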